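import Pool.Agent.R602.RC.Fin

/-!
# The principle `8 RC fin` does not imply `RC 11`

The definitions are in `Pool.Agent.R602.RC.Defs` and `Pool.Agent.W868.Defs`.
-/

namespace Pool.Agent.Results.MP_f9fa2e_lc.EightRCfinNotRC11

open Pool.Agent.W868 Pool.Agent.R602.RC

/-- The numbers `n = 8` and `m = 11` satisfy `m > n` and `m ≡ 1` modulo the product of the primes
dividing `n`, but there is a countable transitive model of ZF in which `8 RC fin` holds and `RC 11`
fails. -/
theorem result : 8 < 11 ∧ 11 ≡ 1 [MOD ∏ p ∈ Nat.primeFactors 8, p] ∧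
    ∃ M : Set ZFSet.{0}, M.Countable ∧ IsZF M ∧ RCfin M 8 ∧ ¬ RCm M 11 := by
  refine ⟨by norm_num, ?_, exists_model⟩
  have h1 : Nat.primeFactors 8 = {2} := by
    rw [show (8 : ℕ) = 2 ^ 3 by norm_num]
    exact Nat.primeFactors_prime_pow (by norm_num) Nat.prime_two
  rw [h1, Finset.prod_singleton]
  decide

end Pool.Agent.Results.MP_f9fa2e_lc.EightRCfinNotRC11
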